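import Pool.Agent.WAP.StmtsM

/-!
# Row APG of the squad WAP: approximation by the curves `ck`, general form
-/

namespace Pool.Agent.WAP.H76

open Classical Pool.Agent.WAP WeierstrassCurve.Affine

theorem cub_cX {F : Type} [Field F] {d : F} (hd : d ≠ 0) (P : Pt d) :
    cub (cX P / d) = cY P * cY P / d ^ 3 := by
  rcases P with _ | ⟨X, Y, h⟩
  · show cub ((0 : F) / d) = (0 : F) * 0 / d ^ 3
    simp [cub]
  · show cub (X / d) = Y * Y / d ^ 3
    have h1 : Y ^ 2 = X ^ 3 - d ^ 2 * X := (W_equation d X Y).1 h.1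
    unfold cub
    field_simp
    linear_combination -h1

theorem kum_self {F : Type} [Field F] {d : F} (hd : d ≠ 0) (P : Pt d) :
    kum d P P = (cX P / d, cX P / d, cub (cX P / d)) := by
  rw [cub_cX hd]
  rfl

theorem sm_add {F : Type} [Field F] [Algebra GaussianInt F] {d : F} (k : GaussianInt)
    (P Q : Pt d) : sm k (P + Q) = sm k P + sm k Q := gsm_add _ k P Q

/-- APG. -/
theorem apg (gdf : GdfStmt) (ckf : CkfStmt) (kuc : KucStmt) (loc : LocStmt) (lvb : LvbStmt)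
    (zlv : ZlvStmt) : ApgStmt := by
  intro F _ _ ϖ hF d hd P0 Q0 hU hyp O hO hmem
  have hG : GoodF F := gdf F (Or.inl ⟨ϖ, hF⟩)
  have h2 : (2 : F) ≠ 0 := by
    have h := hG.1 2 (by norm_num)
    rwa [map_ofNat] at h
  obtain ⟨N1, hN1⟩ := kuc F hG d hd P0 Q0 hU O hO hmem
  obtain ⟨ρ, hρ, hlev⟩ := (lvb F ϖ hF d hd).1 N1
  obtain ⟨N2, hN2⟩ := (lvb F ϖ hF d hd).2 ρ hρ
  obtain ⟨k0, N, hk0⟩ := hyp ρ hρ
  have hcY : cY P0 ≠ 0 := by
    intro h
    apply hU.2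
    show cY P0 * cY Q0 / d ^ 3 = 0
    rw [h, zero_mul, zero_div]
  have hcub : ∀ P : Pt d, cY P ≠ 0 → cub (cX P / d) ≠ 0 := by
    intro P hP
    rw [cub_cX hd]
    exact div_ne_zero (mul_ne_zero hP hP) (pow_ne_zero _ hd)
  have honU : ∀ τ : F, cub τ ≠ 0 → OnU ((τ, τ, cub τ) : F × F × F) := by
    intro τ hτ
    refine ⟨?_, hτ⟩
    show cub τ ^ 2 = cub τ * cub τ
    ring
  have hU0 : OnU (kum d P0 P0) := by
    rw [kum_self hd]
    exact honU _ (hcub P0 hcY)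
  obtain ⟨O2, hO2, hmem2, hloc⟩ := loc F hG d hd P0 P0 hU0 N2
  have hcont : Continuous (fun τ : F => ((τ, τ, cub τ) : F × F × F)) := by
    unfold cub
    fun_prop
  have hcontc : Continuous (fun τ : F => cub τ) := by
    unfold cub
    fun_prop
  refine ⟨k0, N, {τ : F | ((τ, τ, cub τ) : F × F × F) ∈ O2} ∩ {τ : F | cub τ ≠ 0}, ?_, ?_, ?_⟩
  · exact (hO2.preimage hcont).inter (isOpen_ne_fun hcontc continuous_const)
  · refine ⟨cX P0 / d, ?_, hcub P0 hcY⟩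
    show ((cX P0 / d, cX P0 / d, cub (cX P0 / d)) : F × F × F) ∈ O2
    rw [← kum_self hd]
    exact hmem2
  · rintro k τ hk ⟨hτ1, hτ2⟩
    have hτ3 : cub τ ≠ 0 := hτ2
    obtain ⟨p, q, hp, _, hz⟩ := hloc (τ, τ, cub τ) hτ1 (honU τ hτ3)
    have hx : τ = cX (P0 + p) / d := congrArg Prod.fst hz
    have hy : cub τ = cY (P0 + p) * cY (P0 + q) / d ^ 3 :=
      congrArg (fun z : F × F × F => z.2.2) hz
    have hcYp : cY (P0 + p) ≠ 0 := by
      intro h
      apply hτ3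
      rw [hy, h, zero_mul, zero_div]
    have hck : ck k τ = kum d (P0 + p) (sm k (P0 + p)) := by
      rw [hx]
      exact ckf F h2 d hd (P0 + p) hcYp k
    have hlp : Lev ρ p := hN2 p hp
    have h3 : Lev ρ (sm k p) := (zlv F ϖ hF d hd).2.1 ρ k p hlp
    have h4 : Lev ρ (sm k P0 - Q0) := hk0 k hk
    have h5 : Lev ρ ((sm k P0 - Q0) + sm k p) := ((zlv F ϖ hF d hd).1 ρ _ _ h4 h3).1
    have h6 : sm k (P0 + p) = Q0 + ((sm k P0 - Q0) + sm k p) := by
      rw [sm_add]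
      abel
    rw [hck, h6]
    exact hN1 p _ (hlev p hlp) (hlev _ h5)

end Pool.Agent.WAP.H76
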